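import Pool.Agent.N210.FV.Ord

/-!
# The vanishing of the coefficients without a condition at `s = 1`
-/

set_option autoImplicit false

namespace Pool.Agent.N210.FW

open Filter Topology Complex Set Pool.Agent.N210.FV
open scoped ArithmeticFunction.vonMangoldt

/-- the data of one L-function `N/D` -/
structure LF0 (S : Finset ℕ) (F : ℕ → ℕ → ℂ) (N D : ℂ → ℂ) : Prop where
  entN : Ent N
  entD : Ent D
  ld : ∀ s : ℂ, 1 < s.re → logDeriv N s - logDeriv D s = -Ds (aa S 1 F) (oo S 1) s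
  fe : ∃ (μ : List ℂ) (l l' : List (ℕ × ℂ)) (q : ℝ) (ε : ℂ), 0 < q ∧ ε ≠ 0 ∧
    (∀ x ∈ l, x.1.Prime ∧ x.1 ∈ S) ∧ (∀ x ∈ l', x.1.Prime ∧ x.1 ∈ S) ∧
    ∀ s, (q : ℂ) ^ s * gi μ (1 - s) * ef l (1 - s) * ef l' s * (N s * D (1 - s)) =
      ε * (q : ℂ) ^ (1 - s) * gi μ s * ef l s * ef l' (1 - s) * (N (1 - s) * D s)

section

variable {J' : Type*} [Fintype J'] {c : J' → ℝ} {S : Finset ℕ} {F : J' → ℕ → ℕ → ℂ}
  {N D : J' → ℂ → ℂ} {M ρ : ℝ}

theorem gg_ent (h : ∀ j, LF0 S (F j) (N j) (D j)) (x : J' × Bool) : Ent (gg N D x) := by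
  unfold gg
  split_ifs
  · exact (h x.1).entN
  · exact (h x.1).entD

theorem right_G (h : ∀ j, LF0 S (F j) (N j) (D j)) (hb : ∀ j, Bnd S (F j) M ρ) [Nonempty J']
    (h0 : ∀ p : PS S, GG c F p 1 = 0) (s : ℂ) (hs : 1 / 2 < s.re) :
    mm (ww c) (gg N D) s = 0 ∧ AA (ww c) (gg N D) s = -Ds (aa S 2 (GG c F)) (oo S 2) s := by
  have hG := GG_bnd (c := c) hb
  have h1 : DifferentiableOn ℂ (fun s => -Ds (aa S 2 (GG c F)) (oo S 2) s) {s | 1 / 2 < s.re} :=
    (Ds_diffOn hG).neg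
  refine right_of (fun i => (gg_ent h i).diff) (fun i => (gg_ent h i).ne) (σ₁ := 1) h1 ?_ s hs
  intro s hs _
  rw [A0_gg]
  have h2 : ∀ j ∈ Finset.univ, (c j : ℂ) * (logDeriv (N j) s - logDeriv (D j) s) =
      -((c j : ℂ) * Ds (aa S 1 (F j)) (oo S 1) s) := by
    intro j _
    rw [(h j).ld s hs]
    ring
  rw [Finset.sum_congr rfl h2, Finset.sum_neg_distrib, Ds_lin hb (by linarith) (by simpa using hs),
    Ds_shift hG h0 (by linarith) (by simpa using hs)]

/-- the coefficients vanish -/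
theorem zero_all (h : ∀ j, LF0 S (F j) (N j) (D j)) (hb : ∀ j, Bnd S (F j) M ρ) [Nonempty J']
    (h0 : ∀ p : PS S, GG c F p 1 = 0) (p₀ : PS S) (k₀ : ℕ) : GG c F p₀ (k₀ + 2) = 0 := by
  classical
  have hG := GG_bnd (c := c) hb
  set MG : ℝ := (∑ j, |c j|) * M with hMG
  choose μ l l' q ε hq hε hl hl' hfe using fun j => (h j).fe
  set i₀ : PS S × ℕ := (p₀, k₀) with hi₀
  set ω : ℝ := oo S 2 i₀ with hω
  have hω0 : 0 < ω := oo_pos (by norm_num) i₀
  have hωe : ω = ((k₀ + 2 : ℕ) : ℝ) * Real.log (p₀ : ℕ) := by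
    rw [hω, hi₀]
    unfold oo
    push_cast
    ring
  have hfreq : ∀ x : ℕ, x.Prime → x ∈ S → Real.log x ≠ 0 ∧ ∀ n : ℤ, ω ≠ n * Real.log x := by
    intro x hx hxS
    have hlog : 0 < Real.log x := Real.log_pos (by exact_mod_cast hx.one_lt)
    refine ⟨hlog.ne', fun n hn => ?_⟩
    have h1 : 0 < (n : ℝ) := by
      by_contra hcon
      push Not at hcon
      have := mul_nonpos_of_nonpos_of_nonneg hcon hlog.le
      linarith
    have h2 : 0 < n := by exact_mod_cast h1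
    obtain ⟨m, rfl⟩ := Int.eq_ofNat_of_zero_le h2.le
    rw [hωe] at hn
    have h3 := prime_pow_log p₀.2.1 hx (a := k₀ + 2) (b := m) (by omega) (by exact_mod_cast hn)
    exact p₀.2.2 (h3.1 ▸ hxS)
  set H : ℂ → ℂ := fun s => ∑ j, (c j : ℂ) * HH (μ j) (l j) (l' j) (q j) s with hH
  have hT : Tame ω H := Tame.sum hω0.ne' Finset.univ fun j _ =>
    (HH_tame hω0.ne' (μ j) (q j) (fun x hx => hfreq x.1 (hl j x hx).1 (hl j x hx).2)
      (fun x hx => hfreq x.1 (hl' j x hx).1 (hl' j x hx).2)).const_mul (c j : ℂ)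
  obtain ⟨η₀, hη₀, hT⟩ := hT
  set η : ℝ := min η₀ (1 / 4) / 2 with hη
  have hη1 : 0 < min η₀ (1 / 4) := lt_min hη₀ (by norm_num)
  have hη0 : 0 < η := by positivity
  have hη2 : η < η₀ := by
    have := min_le_left η₀ (1 / 4)
    linarith
  have hη4 : η < 1 / 4 := by
    have := min_le_right η₀ (1 / 4)
    linarith
  obtain ⟨hc, hn, C1, hC1, hC1b⟩ := hT η hη0 hη2
  obtain ⟨CV, hCV0, hCV⟩ := V_bound
  have hM0 : 0 ≤ MG := hG.M0
  have hr1 := hG.r1
  have hdiff := fun i => (gg_ent h i).diff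
  have hne := fun i => (gg_ent h i).ne
  set C : ℝ := 1 + C1 + MG * ρ ^ 2 * CV with hC
  have hK0 : 0 ≤ MG * ρ ^ 2 * CV := by positivity
  have hset : Setup (ww c) (gg N D) (aa S 2 (GG c F)) (oo S 2) i₀ η H C ((MG * ρ ^ 2) ^ 2 / 4) := by
    refine ⟨gg_ent h, fun i => oo_nonneg 2 i, hω0, ?_, hη0, hη4, by linarith, ?_, ?_, ?_, hn, ?_,
      ?_, ?_⟩
    · rintro ⟨p, k⟩ hne' heq
      apply hne'
      unfold oo at heq
      have h3 := prime_pow_log p.2.1 p₀.2.1 (a := k + 2) (b := k₀ + 2) (by omega) (by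
        push_cast
        simpa [hi₀] using heq)
      rw [hi₀]
      refine Prod.ext (Subtype.ext h3.1) ?_
      have := h3.2
      simp only
      omega
    · exact hG.summ 2 (by linarith) (by push_cast; linarith)
    · exact right_G h hb h0
    · intro s hs hs2
      have hs3 : 1 / 2 < (1 - s).re := by
        rw [sub_re, one_re]
        linarith
      refine AA_of_eq (B := fun s => Ds (aa S 2 (GG c F)) (oo S 2) (1 - s) + H s) hdiff hne ?_ ?_
      · refine ContinuousAt.add ?_ (hc s hs hs2)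
        have h3 : ContinuousAt (Ds (aa S 2 (GG c F)) (oo S 2)) (1 - s) :=
          ((Ds_diffOn hG).differentiableAt ((isOpen_lt continuous_const continuous_re).mem_nhds
            hs3)).continuousAt
        exact ContinuousAt.comp (f := fun s : ℂ => 1 - s) h3 (by fun_prop)
      · have e1 : ∀ᶠ u in 𝓝[≠] s, 1 / 2 < (1 - u).re := by
          refine mem_nhdsWithin_of_mem_nhds ?_
          have : IsOpen {u : ℂ | 1 / 2 < (1 - u).re} :=
            isOpen_lt continuous_const (continuous_re.comp (continuous_const.sub continuous_id))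
          exact this.mem_nhds hs3
        have e2 : ∀ᶠ u in 𝓝[≠] s, ∀ i, gg N D i (1 - u) ≠ 0 := by
          rw [eventually_all]
          exact fun i => ev_refl (fun z => ev_ne (hdiff i) (hne i) z) s
        have e3 : ∀ᶠ u in 𝓝[≠] s, ∀ j, gi (μ j) u ≠ 0 ∧ gi (μ j) (1 - u) ≠ 0 ∧
            ef (l j) u ≠ 0 ∧ ef (l j) (1 - u) ≠ 0 ∧ ef (l' j) u ≠ 0 ∧ ef (l' j) (1 - u) ≠ 0 := by
          rw [eventually_all]
          intro j
          have a1 : ∀ z, ∀ᶠ u in 𝓝[≠] z, gi (μ j) u ≠ 0 := ev_ne (gi_diff _) (gi_ne _)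
          have a2 : ∀ z, ∀ᶠ u in 𝓝[≠] z, ef (l j) u ≠ 0 := ef_ev fun x hx => (hl j x hx).1.one_lt
          have a3 : ∀ z, ∀ᶠ u in 𝓝[≠] z, ef (l' j) u ≠ 0 := ef_ev fun x hx => (hl' j x hx).1.one_lt
          filter_upwards [a1 s, ev_refl a1 s, a2 s, ev_refl a2 s, a3 s, ev_refl a3 s] with
            u b1 b2 b3 b4 b5 b6
          exact ⟨b1, b2, b3, b4, b5, b6⟩
        filter_upwards [e1, e2, e3] with u h1 h2 h3 h4
        have h5 : A0 (ww c) (gg N D) (1 - u) = -Ds (aa S 2 (GG c F)) (oo S 2) (1 - u) := by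
          rw [← AA_eq hdiff hne h2]
          exact (right_G h hb h0 (1 - u) h1).2
        have h6 : A0 (ww c) (gg N D) u = -A0 (ww c) (gg N D) (1 - u) + H u := by
          rw [A0_gg, A0_gg, hH, ← Finset.sum_neg_distrib, ← Finset.sum_add_distrib]
          refine Finset.sum_congr rfl fun j _ => ?_
          obtain ⟨b1, b2, b3, b4, b5, b6⟩ := h3 j
          have t1 := h4 (j, true)
          have t2 := h4 (j, false)
          have t3 := h2 (j, true)
          have t4 := h2 (j, false)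
          simp only [gg, if_true, Bool.false_eq_true, if_false] at t1 t2 t3 t4
          rw [fe_ld (h j).entN.diff (h j).entD.diff (hq j) (hε j)
            (fun x hx => (hl j x hx).1.ne_zero) (fun x hx => (hl' j x hx).1.ne_zero) (hfe j)
            t1 t3 t2 t4 b1 b2 b3 b4 b5 b6]
          ring
        rw [h6, h5, neg_neg]
    · intro s hs hs2
      have h1 := hG.norm_le 2 (s := s) hs.le (by push_cast; linarith)
      refine h1.trans ?_
      have h2 : ((2 : ℕ) : ℝ) * s.re = 2 * s.re := by push_cast; ring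
      have h3 := hCV (2 * s.re) (by linarith) (by linarith)
      have h4 : 0 < s.re - 1 / 2 := by linarith
      rw [h2]
      calc 2 * (MG * ρ ^ 2) * ∑' n : ℕ, Λ n * (n : ℝ) ^ (-(2 * s.re)) ≤
          2 * (MG * ρ ^ 2) * (CV / (2 * s.re - 1)) := by gcongr
        _ = (MG * ρ ^ 2 * CV) / (s.re - 1 / 2) := by
            have : 2 * s.re - 1 = 2 * (s.re - 1 / 2) := by ring
            rw [this]
            field_simp
        _ ≤ C / (s.re - 1 / 2) := by
            gcongr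
            linarith
    · intro s hs hs2 hs3
      refine (hC1b s hs hs2 (by linarith)).trans ?_
      have h4 : 0 < 1 / 2 - s.re := by linarith
      gcongr
      linarith
    · exact fun Z hZ => hG.sq_bound hdiff hne (fun s hs => (right_G h hb h0 s hs).2) Z hZ
  have hz := hset.zero
  unfold aa at hz
  have hlog : ((Real.log (p₀ : ℕ) : ℝ) : ℂ) ≠ 0 := by exact_mod_cast p₀.log_pos.ne'
  exact (mul_eq_zero.1 hz).resolve_right hlog

/-- if the coefficients cancel the orders cancel -/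
theorem mm_zero (h : ∀ j, LF0 S (F j) (N j) (D j)) (hb : ∀ j, Bnd S (F j) M ρ) [Nonempty J']
    (h0 : ∀ (p : PS S) (k : ℕ), GG c F p (k + 1) = 0) (z : ℂ) : mm (ww c) (gg N D) z = 0 := by
  have h1 : DifferentiableOn ℂ (fun _ : ℂ => (0 : ℂ)) {s : ℂ | z.re - 1 < s.re} :=
    differentiableOn_const _
  refine (right_of (fun i => (gg_ent h i).diff) (fun i => (gg_ent h i).ne) (σ₁ := 1) h1 ?_ z
    (by linarith)).1
  intro s hs _
  rw [A0_gg]
  have h2 : ∀ j ∈ Finset.univ, (c j : ℂ) * (logDeriv (N j) s - logDeriv (D j) s) =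
      -((c j : ℂ) * Ds (aa S 1 (F j)) (oo S 1) s) := by
    intro j _
    rw [(h j).ld s hs]
    ring
  rw [Finset.sum_congr rfl h2, Finset.sum_neg_distrib, Ds_lin hb (by linarith) (by simpa using hs)]
  unfold Ds
  rw [neg_eq_zero, ← tsum_zero]
  refine tsum_congr fun i => ?_
  unfold aa
  rw [h0]
  ring

end

end Pool.Agent.N210.FW
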