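import Pool.Agent.N210.FW.Asm
import Pool.Agent.N210.FV.Main

/-!
# Comparison of the gamma factors
-/

set_option autoImplicit false

namespace Pool.Agent.N210.FW

open Filter Topology Complex Set Pool.Agent.N210.FV

/-! ### orders -/

theorem mo_nz {f : ℂ → ℂ} (hf : Differentiable ℂ f) {z : ℂ} (h : f z ≠ 0) : mo f z = 0 := by
  obtain ⟨φ, -, h1, -⟩ := mo_spec hf ⟨z, h⟩ z
  exact h1 h

theorem mo_refl {f : ℂ → ℂ} (hf : Differentiable ℂ f) (hn : ∃ s, f s ≠ 0) (z : ℂ) :
    mo (fun s => f (1 - s)) z = mo f (1 - z) := by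
  obtain ⟨n, a, ha, haz, hfa⟩ := Pool.Agent.H619R3.sf_single f hf hn (1 - z)
  rw [mo_fac ha haz hfa]
  refine mo_fac (h := fun s => (-1) ^ n * a (1 - s)) ?_ ?_ fun x => ?_
  · exact (differentiable_const _).mul (ha.comp ((differentiable_const _).sub differentiable_id))
  · exact mul_ne_zero (pow_ne_zero _ (by norm_num)) haz
  · rw [hfa, ← mul_assoc, ← mul_pow]
    congr 2
    ring

theorem mo_shift {f : ℂ → ℂ} (hf : Differentiable ℂ f) (hn : ∃ s, f s ≠ 0) (a z : ℂ) :
    mo (fun s => f (s + a)) z = mo f (z + a) := by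
  obtain ⟨n, b, hb, hbz, hfb⟩ := Pool.Agent.H619R3.sf_single f hf hn (z + a)
  rw [mo_fac hb hbz hfb]
  refine mo_fac (h := fun s => b (s + a)) (hb.comp (differentiable_id.add_const a)) hbz fun x => ?_
  rw [hfb]
  congr 2
  ring

theorem mo_id : mo (fun s : ℂ => s) 0 = 1 :=
  mo_fac (n := 1) (h := fun _ => 1) (differentiable_const _) one_ne_zero fun x => by simp

theorem refl_ne {f : ℂ → ℂ} (hn : ∃ s, f s ≠ 0) : ∃ s, f (1 - s) ≠ 0 := by
  obtain ⟨s, hs⟩ := hn
  exact ⟨1 - s, by rwa [sub_sub_cancel]⟩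

theorem refl_diff {f : ℂ → ℂ} (hf : Differentiable ℂ f) : Differentiable ℂ fun s => f (1 - s) :=
  hf.comp ((differentiable_const _).sub differentiable_id)

theorem mo_mul6 {a b c d e f : ℂ → ℂ} (ha : Differentiable ℂ a) (hb : Differentiable ℂ b)
    (hc : Differentiable ℂ c) (hd : Differentiable ℂ d) (he : Differentiable ℂ e)
    (hf : Differentiable ℂ f) (a0 : ∃ s, a s ≠ 0) (b0 : ∃ s, b s ≠ 0) (c0 : ∃ s, c s ≠ 0)
    (d0 : ∃ s, d s ≠ 0) (e0 : ∃ s, e s ≠ 0) (f0 : ∃ s, f s ≠ 0) (z : ℂ) :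
    mo (fun s => a s * b s * c s * d s * (e s * f s)) z =
      mo a z + mo b z + mo c z + mo d z + (mo e z + mo f z) := by
  have h1 := mul_nz ha a0 hb b0
  have h2 := mul_nz (ha.mul hb) h1 hc c0
  have h3 := mul_nz ((ha.mul hb).mul hc) h2 hd d0
  have h4 := mul_nz he e0 hf f0
  rw [mo_mul (f := fun s => a s * b s * c s * d s) (g := fun s => e s * f s)
      (((ha.mul hb).mul hc).mul hd) h3 (he.mul hf) h4,
    mo_mul (f := fun s => a s * b s * c s) (g := d) ((ha.mul hb).mul hc) h2 hd d0,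
    mo_mul (f := fun s => a s * b s) (g := c) (ha.mul hb) h1 hc c0, mo_mul ha a0 hb b0,
    mo_mul he e0 hf f0]

/-- the functional equation for the orders -/
theorem fe_mo {N D : ℂ → ℂ} {μ : List ℂ} {l l' : List (ℕ × ℂ)} {q : ℝ} {ε : ℂ}
    (hN : Ent N) (hD : Ent D) (hq : 0 < q) (hε : ε ≠ 0)
    (hl : ∀ x ∈ l, 1 < x.1) (hl' : ∀ x ∈ l', 1 < x.1)
    (h : ∀ s, (q : ℂ) ^ s * gi μ (1 - s) * ef l (1 - s) * ef l' s * (N s * D (1 - s)) =
      ε * (q : ℂ) ^ (1 - s) * gi μ s * ef l s * ef l' (1 - s) * (N (1 - s) * D s)) (z : ℂ) :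
    mo (gi μ) (1 - z) + mo (ef l) (1 - z) + mo (ef l') z + (mo N z + mo D (1 - z)) =
      mo (gi μ) z + mo (ef l) z + mo (ef l') (1 - z) + (mo N (1 - z) + mo D z) := by
  have hq0 : (q : ℂ) ≠ 0 := by exact_mod_cast hq.ne'
  have qe : (fun s : ℂ => (q : ℂ) ^ s) = fun s => exp ((Real.log q : ℝ) * s) := by
    funext s
    rw [cpow_def_of_ne_zero hq0, ofReal_log hq.le]
  have dq : Differentiable ℂ fun s : ℂ => (q : ℂ) ^ s := by
    rw [qe]
    fun_prop
  have q0 : ∀ s : ℂ, (q : ℂ) ^ s ≠ 0 := by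
    intro s
    have h0 : (q : ℂ) ^ s = exp ((Real.log q : ℝ) * s) := congrFun qe s
    rw [h0]
    exact exp_ne_zero _
  have gn := gi_ne μ
  have gd := gi_diff μ
  have el := ef_ent hl
  have el' := ef_ent hl'
  have e : (fun s : ℂ => (q : ℂ) ^ s * gi μ (1 - s) * ef l (1 - s) * ef l' s *
      (N s * D (1 - s))) = fun s => ε * (q : ℂ) ^ (1 - s) * gi μ s * ef l s * ef l' (1 - s) *
      (N (1 - s) * D s) := funext h
  have dε : Differentiable ℂ fun s : ℂ => ε * (q : ℂ) ^ (1 - s) :=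
    (refl_diff (f := fun s : ℂ => (q : ℂ) ^ s) dq).const_mul ε
  have e1 := mo_mul6 dq (refl_diff gd) (refl_diff el.diff) el'.diff hN.diff (refl_diff hD.diff)
    ⟨0, q0 0⟩ (refl_ne gn) (refl_ne el.ne) el'.ne hN.ne (refl_ne hD.ne) z
  have e2 := mo_mul6 dε gd el.diff (refl_diff el'.diff) (refl_diff hN.diff) hD.diff
    ⟨0, mul_ne_zero hε (q0 _)⟩ gn el.ne (refl_ne el'.ne) (refl_ne hN.ne) hD.ne z
  rw [e, e2, mo_nz dε (mul_ne_zero hε (q0 _)), mo_nz dq (q0 z), mo_refl gd gn,
    mo_refl el.diff el.ne, mo_refl el'.diff el'.ne, mo_refl hN.diff hN.ne,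
    mo_refl hD.diff hD.ne] at e1
  omega

/-! ### the gamma factors -/

/-- order of the inverse gamma factor -/
noncomputable def g1 (z : ℂ) : ℕ := mo (fun s => (Gammaℝ s)⁻¹) z

theorem Gr_ne : ∃ s : ℂ, (Gammaℝ s)⁻¹ ≠ 0 :=
  ⟨2, inv_ne_zero (Gammaℝ_ne_zero_of_re_pos (by norm_num))⟩

theorem g1_im {z : ℂ} (h : z.im ≠ 0) : g1 z = 0 := by
  refine mo_nz differentiable_Gammaℝ_inv (inv_ne_zero fun h1 => ?_)
  rw [Gammaℝ_eq_zero_iff] at h1
  obtain ⟨n, rfl⟩ := h1
  simp at h

theorem g1_step (z : ℂ) : g1 z = g1 (z + 2) + if z = 0 then 1 else 0 := by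
  classical
  have hfun : (fun s : ℂ => (Gammaℝ s)⁻¹) = fun s => (fun s : ℂ => (Gammaℝ s)⁻¹) (s + 2) *
      ((1 / 2 / Real.pi) * s) := by
    funext s
    by_cases hs : s = 0
    · subst hs
      simp [Gammaℝ_eq_zero_iff]
    · simp only
      rw [Gammaℝ_add_two hs]
      have hpi : (Real.pi : ℂ) ≠ 0 := by exact_mod_cast Real.pi_ne_zero
      by_cases hG : Gammaℝ s = 0
      · rw [hG]
        simp
      · field_simp
  have hpi : (Real.pi : ℂ) ≠ 0 := by exact_mod_cast Real.pi_ne_zero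
  have hd1 : Differentiable ℂ fun s : ℂ => (fun s : ℂ => (Gammaℝ s)⁻¹) (s + 2) :=
    differentiable_Gammaℝ_inv.comp (differentiable_id.add_const 2)
  have hn1 : ∃ s : ℂ, (fun s : ℂ => (Gammaℝ s)⁻¹) (s + 2) ≠ 0 := by
    obtain ⟨s, hs⟩ := Gr_ne
    exact ⟨s - 2, by simpa using hs⟩
  have hd2 : Differentiable ℂ fun s : ℂ => (1 / 2 / (Real.pi : ℂ)) * s := by fun_prop
  have hn2 : ∃ s : ℂ, (1 / 2 / (Real.pi : ℂ)) * s ≠ 0 := ⟨1, by simp⟩
  have h1 : g1 z = mo (fun s => (fun s : ℂ => (Gammaℝ s)⁻¹) (s + 2)) z +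
      mo (fun s : ℂ => (1 / 2 / (Real.pi : ℂ)) * s) z := by
    rw [← mo_mul hd1 hn1 hd2 hn2, g1]
    exact congrArg (fun f => mo f z) hfun
  rw [h1, mo_shift differentiable_Gammaℝ_inv Gr_ne]
  congr 1
  split_ifs with hz
  · rw [hz]
    exact mo_fac (n := 1) (h := fun _ => (1 / 2 / (Real.pi : ℂ))) (differentiable_const _)
      (by simp) fun x => by ring
  · exact mo_nz hd2 (by simp [hz])

theorem mo_gi (μ : List ℂ) (z : ℂ) : mo (gi μ) z = (μ.map fun m => g1 (z + m)).sum := by
  induction μ with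
  | nil =>
    have : gi [] = fun _ => 1 := by
      funext s
      unfold gi
      simp
    rw [this]
    exact mo_nz (differentiable_const _) one_ne_zero
  | cons a μ ih =>
    have e : gi (a :: μ) = fun s => (fun s : ℂ => (Gammaℝ s)⁻¹) (s + a) * gi μ s := by
      funext s
      unfold gi
      simp
    have hn1 : ∃ s : ℂ, (fun s : ℂ => (Gammaℝ s)⁻¹) (s + a) ≠ 0 := by
      obtain ⟨s, hs⟩ := Gr_ne
      exact ⟨s - a, by simpa using hs⟩
    rw [e, mo_mul (gi_one_diff a) hn1 (gi_diff μ) (gi_ne μ), ih,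
      mo_shift differentiable_Gammaℝ_inv Gr_ne]
    simp [g1]

/-- second difference of the orders -/
theorem gi_diff2 (μ : List ℂ) (z : ℂ) :
    ((mo (gi μ) (1 - z) : ℝ) - mo (gi μ) z) - (mo (gi μ) (1 - (z - 2)) - mo (gi μ) (z - 2)) =
      (μ.map fun m => (if z = 1 + m then (1 : ℝ) else 0) + if z = 2 - m then 1 else 0).sum := by
  classical
  simp only [mo_gi]
  induction μ with
  | nil => simp
  | cons a μ ih =>
    simp only [List.map_cons, List.sum_cons, Nat.cast_add]
    rw [← ih]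
    have h1 := g1_step (1 - z + a)
    have h2 := g1_step (z - 2 + a)
    have e1 : 1 - z + a + 2 = 1 - (z - 2) + a := by ring
    have e2 : z - 2 + a + 2 = z + a := by ring
    rw [e1] at h1
    rw [e2] at h2
    have h3 : (1 - z + a = 0) = (z = 1 + a) := by
      rw [eq_iff_iff]
      constructor
      · intro h
        linear_combination -h
      · intro h
        rw [h]
        ring
    have h4 : (z - 2 + a = 0) = (z = 2 - a) := by
      rw [eq_iff_iff]
      constructor
      · intro h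
        linear_combination h
      · intro h
        rw [h]
        ring
    simp only [h3] at h1
    simp only [h4] at h2
    rw [h1, h2]
    push_cast
    ring

/-! ### periodic functions in the imaginary direction -/

/-- `φ` is killed by the product of the difference operators with the steps `T ∈ l` -/
def Kill : List ℝ → (ℂ → ℝ) → Prop
  | [], φ => ∀ z, φ z = 0
  | T :: l, φ => Kill l fun z => φ (z + T * I) - φ z

theorem Kill.zero (l : List ℝ) : Kill l fun _ => 0 := by
  induction l with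
  | nil => exact fun _ => rfl
  | cons T l ih =>
    unfold Kill
    simpa using ih

theorem Kill.add {l : List ℝ} {φ ψ : ℂ → ℝ} (h : Kill l φ) (h' : Kill l ψ) :
    Kill l fun z => φ z + ψ z := by
  induction l generalizing φ ψ with
  | nil =>
    intro z
    have h1 := h z
    have h2 := h' z
    simp only [h1, h2, add_zero]
  | cons T l ih =>
    unfold Kill at h h' ⊢
    have := ih h h'
    refine (congrArg (Kill l) ?_).mp this
    funext z
    ring

theorem Kill.const_mul {l : List ℝ} {φ : ℂ → ℝ} (h : Kill l φ) (c : ℝ) :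
    Kill l fun z => c * φ z := by
  induction l generalizing φ with
  | nil =>
    intro z
    have h1 := h z
    simp only [h1, mul_zero]
  | cons T l ih =>
    unfold Kill at h ⊢
    have := ih h
    refine (congrArg (Kill l) ?_).mp this
    funext z
    ring

theorem Kill.shift {l : List ℝ} {φ : ℂ → ℝ} (h : Kill l φ) (a : ℂ) :
    Kill l fun z => φ (z + a) := by
  induction l generalizing φ with
  | nil => exact fun z => h _
  | cons T l ih =>
    unfold Kill at h ⊢
    have := ih h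
    refine (congrArg (Kill l) ?_).mp this
    funext z
    congr 2
    ring

theorem Kill.cons {l : List ℝ} {φ : ℂ → ℝ} (h : Kill l φ) (T : ℝ) : Kill (T :: l) φ := by
  unfold Kill
  have h1 := (h.shift (T * I)).add (h.const_mul (-1))
  refine (congrArg (Kill l) ?_).mp h1
  funext z
  ring

theorem Kill.of_periodic {l : List ℝ} {φ : ℂ → ℝ} {T : ℝ} (hT : T ∈ l)
    (h : ∀ z, φ (z + T * I) = φ z) : Kill l φ := by
  induction l with
  | nil => simp at hT
  | cons T' l ih =>
    rcases List.mem_cons.1 hT with h1 | h1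
    · subst h1
      unfold Kill
      have : (fun z => φ (z + T * I) - φ z) = fun _ => 0 := by
        funext z
        rw [h z, sub_self]
      rw [this]
      exact Kill.zero l
    · exact (ih h1).cons T'

theorem Kill.finset {ι : Type*} {l : List ℝ} (s : Finset ι) {φ : ι → ℂ → ℝ}
    (h : ∀ i ∈ s, Kill l (φ i)) : Kill l fun z => ∑ i ∈ s, φ i z := by
  classical
  induction s using Finset.induction_on with
  | empty => simpa using Kill.zero l
  | insert a s ha ih =>
    simp only [Finset.sum_insert ha]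
    exact (h a (Finset.mem_insert_self _ _)).add (ih fun i hi => h i (Finset.mem_insert_of_mem hi))

theorem Kill.vanish {l : List ℝ} (hl : ∀ T ∈ l, 0 < T) {φ : ℂ → ℝ} (h : Kill l φ) {B : ℝ}
    (hB : ∀ z : ℂ, B < z.im → φ z = 0) (z : ℂ) : φ z = 0 := by
  induction l generalizing φ z with
  | nil => exact h z
  | cons T l ih =>
    have hT := hl T List.mem_cons_self
    unfold Kill at h
    have h1 : ∀ w : ℂ, φ (w + T * I) - φ w = 0 := fun w =>
      ih (fun T' hT' => hl T' (List.mem_cons_of_mem _ hT')) h (fun u hu => by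
        rw [hB _ (by simp; linarith), hB u hu, sub_zero]) w
    have h2 : ∀ n : ℕ, φ (z + (n * T : ℝ) * I) = φ z := by
      intro n
      induction n with
      | zero => simp
      | succ n ihn =>
        have h3 := h1 (z + (n * T : ℝ) * I)
        have e : z + ((n * T : ℝ) : ℂ) * I + T * I = z + (((n + 1 : ℕ) * T : ℝ) : ℂ) * I := by
          push_cast
          ring
        rw [e] at h3
        rw [← ihn]
        linarith
    obtain ⟨n, hn⟩ := exists_nat_gt ((B - z.im) / T)
    rw [div_lt_iff₀ hT] at hn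
    rw [← h2 n]
    apply hB
    have e : (z + ((n * T : ℝ) : ℂ) * I).im = z.im + n * T := by simp
    rw [e]
    linarith

/-- the order of one Euler factor is periodic -/
theorem mo_one_per {p : ℕ} (hp : 1 < p) (b z : ℂ) :
    mo (fun s : ℂ => 1 - b * (p : ℂ) ^ (-s)) (z + (2 * Real.pi / Real.log p : ℝ) * I) =
      mo (fun s : ℂ => 1 - b * (p : ℂ) ^ (-s)) z := by
  have hl : 0 < Real.log p := Real.log_pos (by exact_mod_cast hp)
  have hf : Differentiable ℂ fun s : ℂ => 1 - b * (p : ℂ) ^ (-s) := ef_one_diff (by omega) b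
  have hn : ∃ s : ℂ, 1 - b * (p : ℂ) ^ (-s) ≠ 0 := by
    obtain ⟨u, hu⟩ := (ef_ev (l := [(p, b)]) (by simpa using hp) 0).exists
    refine ⟨u, ?_⟩
    simpa [ef] using hu
  rw [← mo_shift hf hn]
  congr 1
  funext s
  rw [cp (by omega), cp (by omega)]
  congr 2
  rw [mul_add, exp_add]
  have : exp (-((Real.log p : ℝ) : ℂ) * (((2 * Real.pi / Real.log p : ℝ) : ℂ) * I)) = 1 := by
    have hgen : ∀ lam : ℝ, lam ≠ 0 → -(lam : ℂ) * (((2 * Real.pi / lam : ℝ) : ℂ) * I) =
        -(2 * Real.pi * I) := by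
      intro lam h0
      have h1 : (lam : ℂ) ≠ 0 := by exact_mod_cast h0
      push_cast
      field_simp
    have e := hgen (Real.log p) hl.ne'
    rw [e, exp_neg, exp_two_pi_mul_I, inv_one]
  rw [this, mul_one]

theorem ef_kill {L : List ℝ} {l : List (ℕ × ℂ)} (hl : ∀ x ∈ l, 1 < x.1)
    (hL : ∀ x ∈ l, 2 * Real.pi / Real.log x.1 ∈ L) :
    Kill L (fun z => (mo (ef l) z : ℝ)) ∧ Kill L fun z => (mo (ef l) (1 - z) : ℝ) := by
  induction l with
  | nil =>
    have : ∀ z, mo (ef []) z = 0 := by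
      intro z
      have : ef [] = fun _ => 1 := by
        funext s
        unfold ef
        simp
      rw [this]
      exact mo_nz (differentiable_const _) one_ne_zero
    simp only [this, Nat.cast_zero]
    exact ⟨Kill.zero L, Kill.zero L⟩
  | cons a l ih =>
    obtain ⟨h1, h2⟩ := ih (fun x hx => hl x (List.mem_cons_of_mem _ hx))
      (fun x hx => hL x (List.mem_cons_of_mem _ hx))
    have ha := hl a List.mem_cons_self
    have hl' : ∀ x ∈ l, 1 < x.1 := fun x hx => hl x (List.mem_cons_of_mem _ hx)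
    have e : ef (a :: l) = fun s => (1 - a.2 * (a.1 : ℂ) ^ (-s)) * ef l s := by
      funext s
      unfold ef
      simp
    have hn : ∃ s : ℂ, 1 - a.2 * (a.1 : ℂ) ^ (-s) ≠ 0 := by
      obtain ⟨u, hu⟩ := (ef_ev (l := [a]) (by simpa using ha) 0).exists
      refine ⟨u, ?_⟩
      simpa [ef] using hu
    have hm : ∀ z, mo (ef (a :: l)) z = mo (fun s : ℂ => 1 - a.2 * (a.1 : ℂ) ^ (-s)) z +
        mo (ef l) z := by
      intro z
      rw [e, mo_mul (ef_one_diff (by omega) a.2) hn (ef_ent hl').diff (ef_ent hl').ne]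
    have hper := fun z => mo_one_per ha a.2 z
    have hmem := hL a List.mem_cons_self
    simp only [hm, Nat.cast_add]
    refine ⟨(Kill.of_periodic hmem fun z => ?_).add h1, (Kill.of_periodic hmem fun z => ?_).add h2⟩
    · rw [hper]
    · have e2 : 1 - z = 1 - (z + (2 * Real.pi / Real.log a.1 : ℝ) * I) +
          (2 * Real.pi / Real.log a.1 : ℝ) * I := by ring
      rw [e2, hper]

end Pool.Agent.N210.FW
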