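import Pool.Agent.N210.FW.Gam
import Pool.Agent.N210.FV.Thm

/-!
# Symmetric powers: relations of bounded degree force a trivial archimedean parameter
-/

set_option autoImplicit false

namespace Pool.Agent.N210.FW

open Filter Topology Complex Set Pool.Agent.N210.FV

/-- the archimedean parameters of the symmetric `k`-th power -/
def mu (r : ℂ) (k δ : ℕ) : List ℂ := (List.range (k + 1)).map fun i : ℕ => r * ((k : ℂ) - 2 * i) + δ

/-- the analytic properties of `L(s, Sym^k π) = N/D` -/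
structure SymL (S : Finset ℕ) (α : ℕ → ℂ) (r : ℂ) (k : ℕ) (N D : ℂ → ℂ) : Prop where
  diffN : Differentiable ℂ N
  diffD : Differentiable ℂ D
  order : ∃ C : ℝ, ∀ s, ‖N s‖ ≤ Real.exp (C * (1 + ‖s‖) ^ (3 / 2 : ℝ)) ∧
    ‖D s‖ ≤ Real.exp (C * (1 + ‖s‖) ^ (3 / 2 : ℝ))
  ne : ∀ s : ℂ, 1 < s.re → D s ≠ 0
  euler : ∀ s : ℂ, 1 < s.re → Tendsto (fun X : ℕ =>
    ∏ p ∈ (Finset.range X).filter (fun p => p.Prime ∧ p ∉ S),
      ∏ i ∈ Finset.range (k + 1), (1 - α p ^ ((k : ℤ) - 2 * i) * (p : ℂ) ^ (-s))⁻¹) atTop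
      (𝓝 (N s / D s))
  fe : ∃ (δ : ℕ) (l l' : List (ℕ × ℂ)) (q : ℝ) (ε : ℂ), δ ≤ 1 ∧ 0 < q ∧ ε ≠ 0 ∧
    (∀ x ∈ l, x.1.Prime ∧ x.1 ∈ S) ∧ (∀ x ∈ l', x.1.Prime ∧ x.1 ∈ S) ∧
    ∀ s, (q : ℂ) ^ s * gi (mu r k δ) (1 - s) * ef l (1 - s) * ef l' s * (N s * D (1 - s)) =
      ε * (q : ℂ) ^ (1 - s) * gi (mu r k δ) s * ef l s * ef l' (1 - s) * (N (1 - s) * D s)

/-- parameters -/
noncomputable def bs (α : ℕ → ℂ) (k p : ℕ) (i : ℕ) : ℂ := α p ^ ((k : ℤ) - 2 * i)

/-- characters -/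
noncomputable def ch (k : ℕ) (u : ℂ) : ℂ := ∑ i ∈ Finset.range (k + 1), u ^ ((k : ℤ) - 2 * i)

/-- characters as functions of the trace -/
def xr : ℕ → ℝ → ℝ
  | 0, _ => 1
  | 1, x => x
  | k + 2, x => x * xr (k + 1) x - xr k x

theorem ch_rec {u : ℂ} (hu : u ≠ 0) (k : ℕ) :
    ch (k + 2) u = (u + u⁻¹) * ch (k + 1) u - ch k u := by
  have h1 : ch (k + 2) u = (∑ i ∈ Finset.range (k + 2), u ^ (((k + 1 : ℕ) : ℤ) - 2 * i) * u) +
      u ^ (-((k : ℤ) + 2)) := by
    unfold ch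
    rw [Finset.sum_range_succ]
    congr 1
    · refine Finset.sum_congr rfl fun i _ => ?_
      rw [← zpow_add_one₀ hu]
      congr 1
      push_cast
      ring
    · congr 1
      push_cast
      ring
  have h2 : (∑ i ∈ Finset.range (k + 2), u ^ (((k + 1 : ℕ) : ℤ) - 2 * i) * u⁻¹) =
      ch k u + u ^ (-((k : ℤ) + 2)) := by
    unfold ch
    rw [Finset.sum_range_succ]
    congr 1
    · refine Finset.sum_congr rfl fun i _ => ?_
      rw [← zpow_sub_one₀ hu]
      congr 1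
      push_cast
      ring
    · rw [← zpow_sub_one₀ hu]
      congr 1
      push_cast
      ring
  have h3 : (u + u⁻¹) * ch (k + 1) u =
      (∑ i ∈ Finset.range (k + 2), u ^ (((k + 1 : ℕ) : ℤ) - 2 * i) * u) +
      ∑ i ∈ Finset.range (k + 2), u ^ (((k + 1 : ℕ) : ℤ) - 2 * i) * u⁻¹ := by
    unfold ch
    rw [← Finset.sum_mul, ← Finset.sum_mul]
    ring
  rw [h3, h1, h2]
  ring

theorem ch_eq {u : ℂ} (hu : u ≠ 0) {x : ℝ} (hx : u + u⁻¹ = x) (k : ℕ) : ch k u = xr k x := by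
  induction k using Nat.strong_induction_on with
  | _ k ih =>
    match k with
    | 0 => simp [ch, xr]
    | 1 =>
      have : ch 1 u = u + u⁻¹ := by
        unfold ch
        rw [Finset.sum_range_succ, Finset.sum_range_succ]
        norm_num
      rw [this, hx, xr]
    | k + 2 =>
      rw [ch_rec hu, ih (k + 1) (by omega), ih k (by omega), hx, xr]
      push_cast
      ring

theorem ps_bs (α : ℕ → ℂ) (k p n : ℕ) :
    ps (Finset.range (k + 1)) (bs α k) p n = ch k (α p ^ n) := by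
  unfold ps ch bs
  refine Finset.sum_congr rfl fun m _ => ?_
  rw [← zpow_natCast, ← zpow_mul, ← zpow_natCast, ← zpow_mul, mul_comm]

/-- a nontrivial relation -/
theorem exists_rel (V : Finset ℝ) (K : ℕ) (hV : V.card ≤ K) :
    ∃ c : Fin (K + 1) → ℝ, c ≠ 0 ∧ ∀ v ∈ V, ∑ k, c k * xr k v = 0 := by
  classical
  let f : (Fin (K + 1) → ℝ) →ₗ[ℝ] (V → ℝ) :=
    { toFun := fun c v => ∑ k, c k * xr k v
      map_add' := fun c d => by
        funext v
        simp [add_mul, Finset.sum_add_distrib]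
      map_smul' := fun a c => by
        funext v
        simp [Finset.mul_sum, mul_assoc] }
  have h1 : LinearMap.ker f ≠ ⊥ := by
    apply LinearMap.ker_ne_bot_of_finrank_lt
    simp
    omega
  obtain ⟨c, hc, hc0⟩ := (Submodule.ne_bot_iff _).1 h1
  refine ⟨c, hc0, fun v hv => ?_⟩
  have h2 := congrFun (LinearMap.mem_ker.1 hc) ⟨v, hv⟩
  simpa [f] using h2

variable {S S' : Finset ℕ} {α : ℕ → ℂ} {r : ℂ} {k K : ℕ} {N D : ℂ → ℂ} {M ρ r₀ : ℝ}

theorem bs_le (h1 : 1 ≤ r₀) {p : ℕ} (ht : ‖α p‖ ≤ r₀) (ht' : ‖(α p)⁻¹‖ ≤ r₀) (hk : k ≤ K) {i : ℕ}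
    (hi : i ∈ Finset.range (k + 1)) : ‖bs α k p i‖ ≤ r₀ ^ K := by
  rw [Finset.mem_range] at hi
  unfold bs
  set m : ℤ := (k : ℤ) - 2 * i with hm
  have hm2 : m.natAbs ≤ K := by omega
  rcases Int.natAbs_eq m with h | h
  · rw [h, zpow_natCast, norm_pow]
    calc ‖α p‖ ^ m.natAbs ≤ r₀ ^ m.natAbs := by gcongr
      _ ≤ r₀ ^ K := pow_le_pow_right₀ h1 hm2
  · rw [h, zpow_neg, zpow_natCast, ← inv_pow, norm_pow]
    calc ‖(α p)⁻¹‖ ^ m.natAbs ≤ r₀ ^ m.natAbs := by gcongr
      _ ≤ r₀ ^ K := pow_le_pow_right₀ h1 hm2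

theorem bs_bnd (h1 : 1 ≤ r₀) (ht : ∀ p : PS S, ‖α p‖ ≤ r₀)
    (ht' : ∀ p : PS S, ‖(α p)⁻¹‖ ≤ r₀) (hl : ∀ p : PS S, 4 * (r₀ ^ K) ^ 2 ≤ (p : ℕ)) (hk : k ≤ K) :
    Bnd S (ps (Finset.range (k + 1)) (bs α k)) (K + 1) (r₀ ^ K) := by
  refine ⟨by positivity, one_le_pow₀ h1, fun p n => ?_, hl⟩
  unfold ps
  refine (norm_sum_le _ _).trans ?_
  have h2 : ∀ i ∈ Finset.range (k + 1), ‖bs α k p i ^ n‖ ≤ (r₀ ^ K) ^ n := by
    intro i hi
    rw [norm_pow]
    have h3 := bs_le h1 (ht p) (ht' p) hk hi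
    gcongr
  refine (Finset.sum_le_card_nsmul _ _ _ h2).trans ?_
  rw [nsmul_eq_mul, Finset.card_range]
  have h3 : ((k + 1 : ℕ) : ℝ) ≤ (K : ℝ) + 1 := by
    push_cast
    have : (k : ℝ) ≤ K := by exact_mod_cast hk
    linarith
  gcongr

theorem SymL.entD (h : SymL S α r k N D) : Ent D := by
  obtain ⟨C, hC⟩ := h.order
  exact ⟨h.diffD, ⟨2, h.ne 2 (by norm_num)⟩, C, fun s => (hC s).2⟩

/-- enlarging the finite set of primes -/
theorem SymL.toLF0 (h : SymL S α r k N D) (hSS : S ⊆ S')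
    (hb : Bnd S' (ps (Finset.range (k + 1)) (bs α k)) M ρ)
    (hβ : ∀ p : PS S', ∀ i ∈ Finset.range (k + 1), ‖bs α k p i‖ ≤ ρ) :
    LF0 S' (ps (Finset.range (k + 1)) (bs α k))
      (fun s => N s * ef (lst (Finset.range (k + 1)) (bs α k) S S') s) D := by
  have hl1 : ∀ x ∈ lst (Finset.range (k + 1)) (bs α k) S S', 1 < x.1 :=
    fun x hx => (lst_mem hx).1.one_lt
  have heul : ∀ s : ℂ, 1 < s.re → Tendsto (fun X : ℕ =>
      ∏ p ∈ (Finset.range X).filter (fun p => p.Prime ∧ p ∉ S),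
        ∏ i ∈ Finset.range (k + 1), (1 - bs α k p i * (p : ℂ) ^ (-s))⁻¹) atTop
        (𝓝 (N s / D s)) := h.euler
  have hne : ∃ s, N s ≠ 0 := by
    have h1 := nd_eq hSS hb hβ h.diffN h.diffD h.ne heul (s := 2) (by norm_num)
    refine ⟨2, fun h0 => ?_⟩
    rw [h0, zero_mul] at h1
    exact mul_ne_zero (h.ne 2 (by norm_num)) (exp_ne_zero _) h1.symm
  obtain ⟨C, hC⟩ := h.order
  have hN : Ent N := ⟨h.diffN, hne, C, fun s => (hC s).1⟩
  refine ⟨hN.mul (ef_ent hl1), h.entD, fun s hs => ?_, ?_⟩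
  · exact ld_eul hSS hb hβ h.diffN h.diffD h.ne heul hs
  · obtain ⟨δ, l, l', q, ε, -, hq, hε, hl, hl', hfe⟩ := h.fe
    refine ⟨mu r k δ, l ++ lst (Finset.range (k + 1)) (bs α k) S S', l', q, ε, hq, hε, ?_, ?_, ?_⟩
    · intro x hx
      rcases List.mem_append.1 hx with h1 | h1
      · exact ⟨(hl x h1).1, hSS (hl x h1).2⟩
      · exact lst_mem h1
    · intro x hx
      exact ⟨(hl' x hx).1, hSS (hl' x hx).2⟩
    · intro s
      rw [ef_append, ef_append]
      linear_combination (ef (lst (Finset.range (k + 1)) (bs α k) S S') s *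
        ef (lst (Finset.range (k + 1)) (bs α k) S S') (1 - s)) * hfe s

/-- indicator of a point, over the parameters -/
noncomputable def pt (r : ℂ) (k : ℕ) (z : ℂ) : ℝ :=
  open Classical in ∑ i ∈ Finset.range (k + 1), if z = 1 + r * ((k : ℂ) - 2 * i) then 1 else 0

theorem list_sum_range (f : ℕ → ℝ) (n : ℕ) :
    ((List.range n).map f).sum = ∑ i ∈ Finset.range n, f i := by
  induction n with
  | zero => simp
  | succ n ih =>
    rw [List.range_succ, List.map_append, List.sum_append, ih, Finset.sum_range_succ]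
    simp

theorem pt_refl (r : ℂ) (k : ℕ) (a z : ℂ) :
    (open Classical in ∑ i ∈ Finset.range (k + 1), if z = a - r * ((k : ℂ) - 2 * i) then (1 : ℝ)
      else 0) = pt r k (z - a + 1) := by
  classical
  unfold pt
  rw [← Finset.sum_range_reflect]
  refine Finset.sum_congr rfl fun i hi => ?_
  rw [Finset.mem_range] at hi
  have e : ((k + 1 - 1 - i : ℕ) : ℂ) = (k : ℂ) - i := by
    rw [Nat.add_sub_cancel, Nat.cast_sub (by omega)]
  have h : (z = a - r * ((k : ℂ) - 2 * ((k + 1 - 1 - i : ℕ) : ℂ))) =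
      (z - a + 1 = 1 + r * ((k : ℂ) - 2 * i)) := by
    rw [e, eq_iff_iff]
    constructor
    · intro h
      rw [h]
      ring
    · intro h
      linear_combination h
  simp only [h]

theorem mu_sum (r : ℂ) (k δ : ℕ) (hδ : δ ≤ 1) (z : ℂ) :
    (open Classical in ((mu r k δ).map fun m => (if z = 1 + m then (1 : ℝ) else 0) +
      if z = 2 - m then 1 else 0).sum) = pt r k z + pt r k (z - 1) := by
  classical
  unfold mu
  rw [List.map_map, list_sum_range]
  simp only [Function.comp_apply]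
  rw [Finset.sum_add_distrib]
  rcases (by omega : δ = 0 ∨ δ = 1) with h | h
  · subst h
    congr 1
    · unfold pt
      refine Finset.sum_congr rfl fun i _ => ?_
      simp
    · have := pt_refl r k 2 z
      have e : z - 2 + 1 = z - 1 := by ring
      rw [e] at this
      rw [← this]
      refine Finset.sum_congr rfl fun i _ => ?_
      simp
  · subst h
    rw [add_comm (pt r k z)]
    congr 1
    · unfold pt
      refine Finset.sum_congr rfl fun i _ => ?_
      have h : (z = 1 + (r * ((k : ℂ) - 2 * i) + ((1 : ℕ) : ℂ))) =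
          (z - 1 = 1 + r * ((k : ℂ) - 2 * i)) := by
        rw [eq_iff_iff]
        push_cast
        constructor
        · intro h
          rw [h]
          ring
        · intro h
          linear_combination h
      simp only [h]
    · have := pt_refl r k 1 z
      have e : z - 1 + 1 = z := by ring
      rw [e] at this
      rw [← this]
      refine Finset.sum_congr rfl fun i _ => ?_
      have h : (z = 2 - (r * ((k : ℂ) - 2 * i) + ((1 : ℕ) : ℂ))) =
          (z = 1 - r * ((k : ℂ) - 2 * i)) := by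
        rw [eq_iff_iff]
        push_cast
        constructor
        · intro h
          rw [h]
          ring
        · intro h
          linear_combination h
      simp only [h]

theorem pt_far (r : ℂ) {k K : ℕ} (hk : k ≤ K) {z : ℂ} (hz : z.re < -(‖r‖ * K)) : pt r k z = 0 := by
  classical
  unfold pt
  refine Finset.sum_eq_zero fun i hi => if_neg fun h => ?_
  rw [Finset.mem_range] at hi
  have h1 : ‖r * ((k : ℂ) - 2 * i)‖ ≤ ‖r‖ * K := by
    rw [norm_mul]
    have h2 : ((k : ℂ) - 2 * i) = (((k : ℤ) - 2 * i : ℤ) : ℂ) := by push_cast; ring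
    rw [h2, Complex.norm_intCast]
    have h3 : |(((k : ℤ) - 2 * i : ℤ) : ℝ)| ≤ K := by
      rw [abs_le]
      constructor
      · have : -(K : ℤ) ≤ (k : ℤ) - 2 * i := by omega
        exact_mod_cast this
      · have : (k : ℤ) - 2 * i ≤ (K : ℤ) := by omega
        exact_mod_cast this
    gcongr
  have h2 := Complex.abs_re_le_norm (r * ((k : ℂ) - 2 * i))
  have h3 := (abs_le.1 (h2.trans h1)).1
  have h4 : z.re = 1 + (r * ((k : ℂ) - 2 * i)).re := by
    rw [h, add_re, one_re]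
  linarith

theorem pt_top {r : ℂ} (hr : r ≠ 0) {k k₀ : ℕ} (hk : k ≤ k₀) :
    pt r k (1 + r * k₀) = if k = k₀ then 1 else 0 := by
  classical
  unfold pt
  have h : ∀ i : ℕ, (1 + r * (k₀ : ℂ) = 1 + r * ((k : ℂ) - 2 * i)) ↔ (k₀ : ℤ) = (k : ℤ) - 2 * i := by
    intro i
    constructor
    · intro h
      have h1 : (k₀ : ℂ) = (k : ℂ) - 2 * i := mul_left_cancel₀ hr (add_left_cancel h)
      exact_mod_cast h1
    · intro h
      have h1 : (k₀ : ℂ) = (k : ℂ) - 2 * i := by exact_mod_cast h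
      rw [h1]
  split_ifs with hkk
  · subst hkk
    rw [Finset.sum_eq_single 0]
    · simp
    · intro i _ hi
      rw [if_neg]
      rw [h]
      omega
    · intro h0
      simp at h0
  · refine Finset.sum_eq_zero fun i _ => if_neg ?_
    rw [h]
    omega

/-- combination of the points: all weights vanish -/
theorem weights_zero {r : ℂ} (hr : r ≠ 0) {K : ℕ} {c : Fin (K + 1) → ℝ}
    (h : ∀ z : ℂ, ∑ k : Fin (K + 1), c k * (pt r k z + pt r k (z - 1)) = 0) : c = 0 := by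
  classical
  set Ψ : ℂ → ℝ := fun z => ∑ k : Fin (K + 1), c k * pt r k z with hΨ
  have h1 : ∀ z, Ψ z = -Ψ (z - 1) := by
    intro z
    have h2 := h z
    simp only [mul_add, Finset.sum_add_distrib] at h2
    simp only [hΨ]
    linarith
  have h2 : ∀ z : ℂ, z.re < -(‖r‖ * K) → Ψ z = 0 := fun z hz =>
    Finset.sum_eq_zero fun k _ => by rw [pt_far r (by omega) hz, mul_zero]
  have h3 : ∀ (n : ℕ) (z : ℂ), z.re - n < -(‖r‖ * K) → Ψ z = 0 := by
    intro n
    induction n with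
    | zero => exact fun z hz => h2 z (by simpa using hz)
    | succ n ih =>
      intro z hz
      rw [h1, ih (z - 1) (by rw [sub_re, one_re]; push_cast at hz; linarith), neg_zero]
  have h4 : ∀ z, Ψ z = 0 := by
    intro z
    obtain ⟨n, hn⟩ := exists_nat_gt (z.re + ‖r‖ * K)
    exact h3 n z (by linarith)
  by_contra hc
  have hne : (Finset.univ.filter fun k : Fin (K + 1) => c k ≠ 0).Nonempty := by
    by_contra he
    rw [Finset.not_nonempty_iff_eq_empty] at he
    apply hc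
    funext k
    by_contra hk
    have : k ∈ Finset.univ.filter fun k : Fin (K + 1) => c k ≠ 0 := by simpa using hk
    rw [he] at this
    simp at this
  obtain ⟨k₀, hk₀, hmax⟩ := Finset.exists_max_image _ (fun k : Fin (K + 1) => (k : ℕ)) hne
  have h5 := h4 (1 + r * (k₀ : ℕ))
  simp only [hΨ] at h5
  rw [Finset.sum_eq_single k₀] at h5
  · rw [pt_top hr le_rfl, if_pos rfl, mul_one] at h5
    exact (Finset.mem_filter.1 hk₀).2 h5
  · intro k _ hk
    by_cases hck : c k = 0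
    · rw [hck, zero_mul]
    · have h6 := hmax k (by simp [hck])
      have h7 : (k : ℕ) ≠ k₀ := fun h8 => hk (Fin.ext h8)
      rw [pt_top hr h6, if_neg h7, mul_zero]
  · intro h6
    exact absurd (Finset.mem_univ _) h6

end Pool.Agent.N210.FW
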