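import Pool.Agent.N210.FW.Sym

/-!
# The theorem: many values unless the archimedean parameter is trivial
-/

set_option autoImplicit false

namespace Pool.Agent.N210.FW

open Filter Topology Complex Set Pool.Agent.N210.FV

theorem gi_far {μ : List ℂ} {z : ℂ} (h : ∀ m ∈ μ, z.im + m.im ≠ 0) : mo (gi μ) z = 0 := by
  rw [mo_gi]
  induction μ with
  | nil => simp
  | cons a μ ih =>
    rw [List.map_cons, List.sum_cons, ih fun m hm => h m (List.mem_cons_of_mem _ hm), g1_im]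
    rw [add_im]
    exact h a List.mem_cons_self

theorem mu_im {r : ℂ} {k K δ : ℕ} (hk : k ≤ K) {m : ℂ} (hm : m ∈ mu r k δ) : |m.im| ≤ ‖r‖ * K := by
  unfold mu at hm
  rw [List.mem_map] at hm
  obtain ⟨i, hi, rfl⟩ := hm
  rw [List.mem_range] at hi
  have e : (r * ((k : ℂ) - 2 * i) + (δ : ℂ)).im = (r * ((k : ℂ) - 2 * i)).im := by simp
  rw [e]
  refine (Complex.abs_im_le_norm _).trans ?_
  rw [norm_mul]
  have h2 : ((k : ℂ) - 2 * i) = (((k : ℤ) - 2 * i : ℤ) : ℂ) := by push_cast; ring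
  rw [h2, Complex.norm_intCast]
  have h3 : |(((k : ℤ) - 2 * i : ℤ) : ℝ)| ≤ K := by
    rw [abs_le]
    constructor
    · have : -(K : ℤ) ≤ (k : ℤ) - 2 * i := by omega
      exact_mod_cast this
    · have : (k : ℤ) - 2 * i ≤ (K : ℤ) := by omega
      exact_mod_cast this
  gcongr

theorem main2 {S : Finset ℕ} {α : ℕ → ℂ} {a : ℕ → ℝ} {r : ℂ} (hr : r ≠ 0) {K : ℕ}
    {N D : ℕ → ℂ → ℂ} (hα : ∀ p : ℕ, p.Prime → p ∉ S → α p ≠ 0)
    (ha : ∀ p : ℕ, p.Prime → p ∉ S → α p + (α p)⁻¹ = a p)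
    (hL : ∀ k ≤ K, SymL S α r k (N k) (D k)) (V : Finset ℝ) (hV : V.card ≤ K) :
    {p : ℕ | p.Prime ∧ p ∉ S ∧ a p ∉ V}.Infinite := by
  classical
  by_contra hcon
  rw [Set.not_infinite] at hcon
  set r₀ : ℝ := 1 + ∑ v ∈ V, |v| with hr₀
  have hs0 : 0 ≤ ∑ v ∈ V, |v| := Finset.sum_nonneg fun v _ => abs_nonneg _
  have hr1 : 1 ≤ r₀ := by linarith
  obtain ⟨B, hB⟩ := exists_nat_ge (4 * (r₀ ^ K) ^ 2)
  set S' : Finset ℕ := S ∪ hcon.toFinset ∪ Finset.range B with hS'
  have hSS : S ⊆ S' := fun p hp => Finset.mem_union_left _ (Finset.mem_union_left _ hp)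
  have hnS : ∀ p : PS S', (p : ℕ) ∉ S := fun p hp => p.2.2 (hSS hp)
  have haV : ∀ p : PS S', a p ∈ V := by
    intro p
    by_contra h1
    apply p.2.2
    refine Finset.mem_union_left _ (Finset.mem_union_right _ ?_)
    rw [Set.Finite.mem_toFinset]
    exact ⟨p.2.1, hnS p, h1⟩
  have hpB : ∀ p : PS S', B ≤ (p : ℕ) := by
    intro p
    by_contra h1
    push Not at h1
    exact p.2.2 (Finset.mem_union_right _ (Finset.mem_range.2 h1))
  have hα' : ∀ p : PS S', α p ≠ 0 := fun p => hα p p.2.1 (hnS p)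
  have ha' : ∀ p : PS S', α p + (α p)⁻¹ = a p := fun p => ha p p.2.1 (hnS p)
  have hzn : ∀ p : PS S', 1 + ‖((a p : ℝ) : ℂ)‖ ≤ r₀ := by
    intro p
    rw [Complex.norm_real, Real.norm_eq_abs, hr₀]
    have h1 : |a p| ≤ ∑ v ∈ V, |v| :=
      Finset.single_le_sum (f := fun v => |v|) (fun v _ => abs_nonneg _) (haV p)
    linarith
  have ht1 : ∀ p : PS S', ‖α p‖ ≤ r₀ := fun p => (root_bd (ha' p)).trans (hzn p)
  have ht2 : ∀ p : PS S', ‖(α p)⁻¹‖ ≤ r₀ := fun p =>
    (root_bd (u := (α p)⁻¹) (z := ((a p : ℝ) : ℂ)) (by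
      rw [inv_inv, ← ha' p]
      ring)).trans (hzn p)
  have hl : ∀ p : PS S', 4 * (r₀ ^ K) ^ 2 ≤ (p : ℕ) := fun p =>
    hB.trans (by exact_mod_cast hpB p)
  have hb : ∀ k : Fin (K + 1), Bnd S' (ps (Finset.range (k + 1)) (bs α k)) (K + 1) (r₀ ^ K) :=
    fun k => bs_bnd hr1 ht1 ht2 hl (by omega)
  have hSym : ∀ k : Fin (K + 1), SymL S α r k (N k) (D k) := fun k => hL k (by omega)
  have hLF : ∀ k : Fin (K + 1), LF0 S' (ps (Finset.range (k + 1)) (bs α k))
      (fun s => N k s * ef (lst (Finset.range (k + 1)) (bs α k) S S') s) (D k) := fun k =>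
    (hSym k).toLF0 hSS (hb k) fun p i hi => bs_le hr1 (ht1 p) (ht2 p) (by omega) hi
  obtain ⟨c, hc0, hc⟩ := exists_rel V K hV
  -- the relation holds at all the prime powers
  have hrel : ∀ p : PS S', GG c (fun k : Fin (K + 1) => ps (Finset.range (k + 1)) (bs α k)) p 1 = 0 := by
    intro p
    unfold GG
    have h1 : ∀ k : Fin (K + 1), ps (Finset.range (k + 1)) (bs α k) p 1 = (xr k (a p) : ℂ) := by
      intro k
      rw [ps_bs, pow_one, ch_eq (hα' p) (ha' p)]
    simp only [h1]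
    have h2 := hc (a p) (haV p)
    exact_mod_cast h2
  have hall : ∀ (p : PS S') (n : ℕ),
      GG c (fun k : Fin (K + 1) => ps (Finset.range (k + 1)) (bs α k)) p (n + 1) = 0 := by
    intro p n
    rcases Nat.eq_zero_or_pos n with h0 | h0
    · rw [h0]
      exact hrel p
    · obtain ⟨m, rfl⟩ := Nat.exists_eq_add_of_le' h0
      exact zero_all hLF hb hrel p m
  have hmm := mm_zero hLF hb (c := c) hall
  simp only [mm_gg] at hmm
  -- the functional equations
  choose δ l l' q ε hδ hq hε hlp hlp' hfe using fun k : Fin (K + 1) => (hSym k).fe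
  have hfe' : ∀ k : Fin (K + 1), ∃ (l₁ l₂ : List (ℕ × ℂ)),
      (∀ x ∈ l₁, x.1.Prime ∧ x.1 ∈ S') ∧ (∀ x ∈ l₂, x.1.Prime ∧ x.1 ∈ S') ∧ ∀ z : ℂ,
      mo (gi (mu r k (δ k))) (1 - z) + mo (ef l₁) (1 - z) + mo (ef l₂) z +
        (mo (fun s => N k s * ef (lst (Finset.range (k + 1)) (bs α k) S S') s) z +
          mo (D k) (1 - z)) =
      mo (gi (mu r k (δ k))) z + mo (ef l₁) z + mo (ef l₂) (1 - z) +
        (mo (fun s => N k s * ef (lst (Finset.range (k + 1)) (bs α k) S S') s) (1 - z) +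
          mo (D k) z) := by
    intro k
    have hm1 : ∀ x ∈ l k ++ lst (Finset.range (k + 1)) (bs α k) S S', x.1.Prime ∧ x.1 ∈ S' := by
      intro x hx
      rcases List.mem_append.1 hx with h1 | h1
      · exact ⟨(hlp k x h1).1, hSS (hlp k x h1).2⟩
      · exact lst_mem h1
    have hm2 : ∀ x ∈ l' k, x.1.Prime ∧ x.1 ∈ S' := fun x hx =>
      ⟨(hlp' k x hx).1, hSS (hlp' k x hx).2⟩
    refine ⟨l k ++ lst (Finset.range (k + 1)) (bs α k) S S', l' k, hm1, hm2, ?_⟩
    refine fe_mo (hLF k).entN (hLF k).entD (hq k) (hε k) (fun x hx => (hm1 x hx).1.one_lt)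
      (fun x hx => (hm2 x hx).1.one_lt) fun s => ?_
    rw [ef_append, ef_append]
    linear_combination (ef (lst (Finset.range (k + 1)) (bs α k) S S') s *
      ef (lst (Finset.range (k + 1)) (bs α k) S S') (1 - s)) * hfe k s
  choose l₁ l₂ hl₁ hl₂ hord using hfe'
  -- the gamma part
  set Lf : ℂ → ℝ := fun z => ∑ k : Fin (K + 1), c k * ((mo (gi (mu r k (δ k))) (1 - z) : ℝ) -
    mo (gi (mu r k (δ k))) z) with hLf
  have hLe : ∀ z, Lf z = ∑ k : Fin (K + 1), c k * (((mo (ef (l₁ k)) z : ℝ) +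
      (-1) * mo (ef (l₁ k)) (1 - z)) + ((-1) * mo (ef (l₂ k)) z + mo (ef (l₂ k)) (1 - z))) := by
    intro z
    have h1 := hmm z
    have h2 := hmm (1 - z)
    have h3 : ∀ k : Fin (K + 1), (mo (gi (mu r k (δ k))) (1 - z) : ℝ) - mo (gi (mu r k (δ k))) z =
        (((mo (ef (l₁ k)) z : ℝ) + (-1) * mo (ef (l₁ k)) (1 - z)) +
          ((-1) * mo (ef (l₂ k)) z + mo (ef (l₂ k)) (1 - z))) +
        (((mo (fun s => N k s * ef (lst (Finset.range (k + 1)) (bs α k) S S') s) (1 - z) : ℝ) -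
          mo (D k) (1 - z)) -
        ((mo (fun s => N k s * ef (lst (Finset.range (k + 1)) (bs α k) S S') s) z : ℝ) -
          mo (D k) z)) := by
      intro k
      have h4 := hord k z
      have h5 : ((mo (gi (mu r k (δ k))) (1 - z) + mo (ef (l₁ k)) (1 - z) + mo (ef (l₂ k)) z +
        (mo (fun s => N k s * ef (lst (Finset.range (k + 1)) (bs α k) S S') s) z +
          mo (D k) (1 - z)) : ℕ) : ℝ) =
      ((mo (gi (mu r k (δ k))) z + mo (ef (l₁ k)) z + mo (ef (l₂ k)) (1 - z) +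
        (mo (fun s => N k s * ef (lst (Finset.range (k + 1)) (bs α k) S S') s) (1 - z) +
          mo (D k) z) : ℕ) : ℝ) := by exact_mod_cast h4
      push_cast at h5
      linarith
    simp only [hLf, h3]
    simp only [mul_add, mul_sub, Finset.sum_add_distrib, Finset.sum_sub_distrib] at h1 h2 ⊢
    linarith
  set Ts : List ℝ := (S'.toList).map fun p => 2 * Real.pi / Real.log p with hTs
  have hmem : ∀ x : ℕ, x ∈ S' → 2 * Real.pi / Real.log x ∈ (S'.filter Nat.Prime).toList.map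
      (fun p : ℕ => 2 * Real.pi / Real.log p) ∨ ¬ x.Prime := by
    intro x hx
    by_cases hp : x.Prime
    · left
      exact List.mem_map.2 ⟨x, by simp [hx, hp], rfl⟩
    · exact Or.inr hp
  set T : List ℝ := (S'.filter Nat.Prime).toList.map (fun p : ℕ => 2 * Real.pi / Real.log p) with hT
  have hTpos : ∀ t ∈ T, 0 < t := by
    intro t ht
    rw [hT, List.mem_map] at ht
    obtain ⟨p, hp, rfl⟩ := ht
    rw [Finset.mem_toList, Finset.mem_filter] at hp
    have : 0 < Real.log p := Real.log_pos (by exact_mod_cast hp.2.one_lt)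
    positivity
  have hTm : ∀ (l₀ : List (ℕ × ℂ)), (∀ x ∈ l₀, x.1.Prime ∧ x.1 ∈ S') →
      ∀ x ∈ l₀, 2 * Real.pi / Real.log x.1 ∈ T := by
    intro l₀ h x hx
    rcases hmem x.1 (h x hx).2 with h1 | h1
    · exact h1
    · exact absurd (h x hx).1 h1
  have hkill : Kill T Lf := by
    have h1 : Kill T (fun z => ∑ k : Fin (K + 1), c k * (((mo (ef (l₁ k)) z : ℝ) +
      (-1) * mo (ef (l₁ k)) (1 - z)) + ((-1) * mo (ef (l₂ k)) z + mo (ef (l₂ k)) (1 - z)))) := by
      refine Kill.finset Finset.univ fun k _ => ?_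
      obtain ⟨a1, a2⟩ := ef_kill (fun x hx => (hl₁ k x hx).1.one_lt) (hTm _ (hl₁ k))
      obtain ⟨b1, b2⟩ := ef_kill (fun x hx => (hl₂ k x hx).1.one_lt) (hTm _ (hl₂ k))
      exact ((a1.add (a2.const_mul (-1))).add ((b1.const_mul (-1)).add b2)).const_mul (c k)
    have h2 : Lf = fun z => ∑ k : Fin (K + 1), c k * (((mo (ef (l₁ k)) z : ℝ) +
      (-1) * mo (ef (l₁ k)) (1 - z)) + ((-1) * mo (ef (l₂ k)) z + mo (ef (l₂ k)) (1 - z))) :=
      funext hLe
    rw [h2]
    exact h1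
  have hzero : ∀ z, Lf z = 0 := by
    refine hkill.vanish hTpos (B := ‖r‖ * K) fun z hz => ?_
    refine Finset.sum_eq_zero fun k _ => ?_
    rw [gi_far, gi_far]
    · simp
    · intro m hm
      have h1 := (abs_le.1 (mu_im (K := K) (by omega) hm)).1
      have : 0 < z.im + m.im := by linarith
      exact this.ne'
    · intro m hm
      have h1 := (abs_le.1 (mu_im (K := K) (by omega) hm)).2
      have : (1 - z).im + m.im < 0 := by
        rw [sub_im, one_im]
        linarith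
      exact this.ne
  have hfin : ∀ z : ℂ, ∑ k : Fin (K + 1), c k * (pt r k z + pt r k (z - 1)) = 0 := by
    intro z
    have h1 : Lf z - Lf (z - 2) = 0 := by rw [hzero, hzero, sub_zero]
    simp only [hLf] at h1
    rw [← Finset.sum_sub_distrib] at h1
    rw [← h1]
    refine Finset.sum_congr rfl fun k _ => ?_
    rw [← mul_sub, gi_diff2, mu_sum r k (δ k) (hδ k)]
  exact hc0 (weights_zero hr hfin)

end Pool.Agent.N210.FW
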